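import Mathlib

open Set

namespace Pool.Agent.Results.MP_b19ca0_gt.Fails

/-- The open Euclidean unit disk. -/
def M : Set (ℝ × ℝ) := {x | x.1 ^ 2 + x.2 ^ 2 < 1}

/-- In the affine coordinate `t ↦ x + t (y - x)` of the line through `x` (at `t = 0`) and `y`
(at `t = 1`), the coordinates of the points where the line meets the unit circle. -/
def T (x y : ℝ × ℝ) : Set ℝ :=
  {t | (x.1 + t * (y.1 - x.1)) ^ 2 + (x.2 + t * (y.2 - x.2)) ^ 2 = 1}

/-- The Hilbert metric: absolute value of the logarithm of the cross-ratio `{x,y;a,b}`, where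
`a`, `b` are the smaller and the larger element of the two-element set `T x y`. -/
noncomputable def h (x y : ℝ × ℝ) : ℝ :=
  if x = y then 0 else
    |Real.log (((0 - sInf (T x y)) * (1 - sSup (T x y))) /
      ((0 - sSup (T x y)) * (1 - sInf (T x y))))|

/-- The taxicab metric. -/
def m (x y : ℝ × ℝ) : ℝ := |x.1 - y.1| + |x.2 - y.2|

/-- The sum metric. -/
noncomputable def d (x y : ℝ × ℝ) : ℝ := h x y + m x y

/-- Busemann non-positive curvature of `(M, d)`: every point has a `d`-ball around it in which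
midpoints satisfy `2 d(p,q) ≤ d(y,z)`. -/
def NPC : Prop :=
  ∀ o ∈ M, ∃ δ : ℝ, 0 < δ ∧ ∀ x ∈ M, ∀ y ∈ M, ∀ z ∈ M, d o x < δ → d o y < δ → d o z < δ →
    ∀ p ∈ segment ℝ x y, ∀ q ∈ segment ℝ x z, d x p = d p y → d x q = d q z →
      2 * d p q ≤ d y z

lemma hline (a1 a2 v1 v2 k α β τ ε : ℝ) (hk : k ≠ 0)
    (hq : ∀ s, (a1 + s * v1) ^ 2 + (a2 + s * v2) ^ 2 - 1 = k * ((s + α) * (s - β)))
    (hv : v2 ≠ 0) (h1 : -α < τ) (h2 : τ ≤ ε) (h3 : ε < β) :
    h (a1 + τ * v1, a2 + τ * v2) (a1 + ε * v1, a2 + ε * v2) =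
      (Real.log (α + ε) - Real.log (β - ε)) - (Real.log (α + τ) - Real.log (β - τ)) := by
  rcases h2.eq_or_lt with rfl | h2
  · simp [h]
  have hne : (a1 + τ * v1, a2 + τ * v2) ≠ (a1 + ε * v1, a2 + ε * v2) := by
    intro e
    have e2 : a2 + τ * v2 = a2 + ε * v2 := congrArg Prod.snd e
    have : (τ - ε) * v2 = 0 := by linarith
    rcases mul_eq_zero.1 this with h | h
    · linarith
    · exact hv h
  have hd : 0 < ε - τ := by linarith
  have hT : T (a1 + τ * v1, a2 + τ * v2) (a1 + ε * v1, a2 + ε * v2) =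
      {(-α - τ) / (ε - τ), (β - τ) / (ε - τ)} := by
    ext t
    have := hq (τ + t * (ε - τ))
    simp only [T, mem_ofPred_eq, mem_insert_iff, mem_singleton_iff]
    rw [eq_div_iff hd.ne', eq_div_iff hd.ne']
    constructor
    · intro e
      have e3 : k * ((τ + t * (ε - τ) + α) * (τ + t * (ε - τ) - β)) = 0 := by
        rw [← this]; linear_combination e
      rcases mul_eq_zero.1 ((mul_eq_zero.1 e3).resolve_left hk) with h | h
      · left; linarith
      · right; linarith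
    · rintro (e | e)
      · have e4 : τ + t * (ε - τ) + α = 0 := by linarith
        rw [e4] at this; linear_combination this
      · have e4 : τ + t * (ε - τ) - β = 0 := by linarith
        rw [e4] at this; linear_combination this
  have hle : (-α - τ) / (ε - τ) ≤ (β - τ) / (ε - τ) :=
    div_le_div_of_nonneg_right (by linarith) hd.le
  have p1 : 0 < α + τ := by linarith
  have p2 : 0 < α + ε := by linarith
  have p3 : 0 < β - τ := by linarith
  have p4 : 0 < β - ε := by linarith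
  unfold h
  rw [if_neg hne, hT, csInf_pair, csSup_pair, inf_eq_left.2 hle, sup_eq_right.2 hle]
  have e : (0 - (-α - τ) / (ε - τ)) * (1 - (β - τ) / (ε - τ)) /
      ((0 - (β - τ) / (ε - τ)) * (1 - (-α - τ) / (ε - τ))) =
      ((α + τ) * (β - ε)) / ((β - τ) * (α + ε)) := by
    have e1 : 1 - (β - τ) / (ε - τ) = -(β - ε) / (ε - τ) := by field_simp; ring
    have e2 : 1 - (-α - τ) / (ε - τ) = (α + ε) / (ε - τ) := by field_simp; ring
    have e3 : 0 - (-α - τ) / (ε - τ) = (α + τ) / (ε - τ) := by field_simp; ring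
    have e4 : 0 - (β - τ) / (ε - τ) = -(β - τ) / (ε - τ) := by field_simp; ring
    rw [e1, e2, e3, e4]; field_simp
  rw [e, Real.log_div (by positivity) (by positivity), Real.log_mul p1.ne' p4.ne',
    Real.log_mul p3.ne' p2.ne', abs_of_nonpos]
  · ring
  · have := Real.log_le_log p1 (show α + τ ≤ α + ε by linarith)
    have := Real.log_le_log p4 (show β - ε ≤ β - τ by linarith)
    linarith

lemma lg (x : ℝ) (hx : |x| ≤ 1 / 2) : |x + x ^ 2 / 2 + Real.log (1 - x)| ≤ 2 * |x| ^ 3 := by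
  have := Real.abs_log_sub_add_sum_range_le (x := x) (by linarith) 2
  simp only [Finset.sum_range_succ, Finset.sum_range_zero] at this
  norm_num at this
  have h2 : |x| ^ 3 / (1 - |x|) ≤ 2 * |x| ^ 3 := by
    rw [div_le_iff₀ (by linarith)]
    have : 0 ≤ |x| ^ 3 := by positivity
    nlinarith
  linarith

noncomputable def Φ (s : ℝ) : ℝ := Real.log (8 / 17 + s) - Real.log (1 - s) + 8 / 5 * s

noncomputable def P (σ s : ℝ) : ℝ × ℝ := (3 / 5 + s * (-3 / 5), 0 + s * σ)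

lemma dray (σ τ ε : ℝ) (hσ : σ = 1 ∨ σ = -1) (h0 : 0 ≤ τ) (h1 : τ ≤ ε) (h2 : ε < 1) :
    d (P σ τ) (P σ ε) = Φ ε - Φ τ := by
  unfold d P
  rw [hline (3 / 5) 0 (-3 / 5) σ (34 / 25) (8 / 17) 1 τ ε (by norm_num)
    (by intro s; rcases hσ with rfl | rfl <;> ring) (by rcases hσ with rfl | rfl <;> norm_num)
    (by linarith) h1 h2]
  have e1 : |3 / 5 + τ * (-3 / 5) - (3 / 5 + ε * (-3 / 5))| = 3 / 5 * (ε - τ) := by
    rw [abs_of_nonneg (by linarith)]; ring
  have e2 : |0 + τ * σ - (0 + ε * σ)| = ε - τ := by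
    rcases hσ with rfl | rfl
    · rw [abs_of_nonpos (by linarith)]; ring
    · rw [abs_of_nonneg (by linarith)]; ring
  simp only [m, Φ]
  rw [e1, e2]; ring

lemma Phi_est (s : ℝ) (h0 : 0 ≤ s) (h1 : s ≤ 1 / 10) :
    |Φ s - Φ 0 - (189 / 40 * s - 225 / 128 * s ^ 2)| ≤ 22 * s ^ 3 := by
  have a1 := lg s (by rw [abs_of_nonneg h0]; linarith)
  have a2 := lg (-(17 / 8 * s)) (by rw [abs_neg, abs_of_nonneg (by positivity)]; linarith)
  rw [abs_of_nonneg h0] at a1
  rw [abs_neg, abs_of_nonneg (show 0 ≤ 17 / 8 * s by positivity)] at a2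
  have e : Real.log (8 / 17 + s) = Real.log (8 / 17) + Real.log (1 - -(17 / 8 * s)) := by
    rw [← Real.log_mul (by norm_num) (by linarith)]; congr 1; ring
  have hs : 0 ≤ s ^ 3 := by positivity
  rw [abs_le] at a1 a2 ⊢
  simp only [Φ, e, add_zero, sub_zero, Real.log_one, mul_zero]
  constructor <;> nlinarith [a1.1, a1.2, a2.1, a2.2]

lemma Psi_est (s : ℝ) (h0 : 0 ≤ s) (h1 : s ≤ 1 / 10) :
    |d (P (-1) s) (P 1 s) - (7 * s - 45 / 16 * s ^ 2)| ≤ 26 * s ^ 3 := by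
  obtain ⟨b, hb, hb2⟩ : ∃ b : ℝ, 4 / 5 ≤ b ∧ b ^ 2 = 1 - (3 / 5 + s * (-3 / 5)) ^ 2 := by
    refine ⟨√(1 - (3 / 5 + s * (-3 / 5)) ^ 2), ?_, Real.sq_sqrt (by nlinarith)⟩
    apply Real.le_sqrt_of_sq_le; nlinarith
  have b0 : 0 < b := by linarith
  have e0 : d (P (-1) s) (P 1 s) = 2 * (Real.log (b + s) - Real.log (b - s)) + 2 * s := by
    have := hline (3 / 5 + s * (-3 / 5)) 0 0 1 1 b b (-s) s one_ne_zero
      (by intro t; linear_combination hb2) one_ne_zero (by linarith) (by linarith) (by linarith)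
    unfold d P
    simp only [mul_zero, add_zero, mul_one, zero_add, mul_neg] at this ⊢
    rw [this]
    simp only [m, sub_self, abs_zero, zero_add, sub_neg_eq_add]
    rw [abs_of_nonpos (by linarith), ← sub_eq_add_neg]; ring
  obtain ⟨r, hr⟩ : ∃ r, r = s / b := ⟨_, rfl⟩
  have hrb : r * b = s := by rw [hr]; field_simp
  have r0 : 0 ≤ r := by rw [hr]; positivity
  have r1 : r ≤ 5 / 4 * s := by nlinarith
  have e1 : Real.log (b + s) = Real.log b + Real.log (1 - -r) := by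
    rw [← Real.log_mul b0.ne' (by linarith)]; congr 1; linarith
  have e2 : Real.log (b - s) = Real.log b + Real.log (1 - r) := by
    rw [← Real.log_mul b0.ne' (by linarith)]; congr 1; linarith
  have a1 := lg r (by rw [abs_of_nonneg r0]; linarith)
  have a2 := lg (-r) (by rw [abs_neg, abs_of_nonneg r0]; linarith)
  rw [abs_of_nonneg r0] at a1
  rw [abs_neg, abs_of_nonneg r0] at a2
  have r3 : r ^ 3 ≤ 2 * s ^ 3 := by
    have := pow_le_pow_left₀ r0 r1 3
    have hs : 0 ≤ s ^ 3 := by positivity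
    nlinarith
  obtain ⟨w, hw⟩ : ∃ w, w = 5 / 4 - 45 / 64 * s := ⟨_, rfl⟩
  have w0 : 0 < w := by linarith
  have bw : 0 < b * w := by positivity
  have k1 : |1 - b * w| ≤ 2 * s ^ 2 := by
    have e3 : (1 - b * w) * (1 + b * w) =
        s ^ 2 * (387 / 256 - 2025 / 2048 * s + 729 / 4096 * s ^ 2) := by
      have : (1 - b * w) * (1 + b * w) = 1 - b ^ 2 * w ^ 2 := by ring
      rw [this, hb2, hw]; ring
    have q0 : 0 ≤ 387 / 256 - 2025 / 2048 * s + 729 / 4096 * s ^ 2 := by nlinarith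
    have q1 : 387 / 256 - 2025 / 2048 * s + 729 / 4096 * s ^ 2 ≤ 2 := by nlinarith
    have s2 : 0 ≤ s ^ 2 := by positivity
    have n0 : 0 ≤ 1 - b * w := by
      by_contra hn
      have : (1 - b * w) * (1 + b * w) < 0 := mul_neg_of_neg_of_pos (by linarith) (by linarith)
      have := mul_nonneg s2 q0
      linarith
    rw [abs_of_nonneg n0]
    have := mul_le_mul_of_nonneg_left q1 s2
    have := mul_nonneg n0 bw.le
    nlinarith
  have k2 : |r - s * w| ≤ 5 / 2 * s ^ 3 := by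
    have : r - s * w = r * (1 - b * w) := by rw [← hrb]; ring
    rw [this, abs_mul, abs_of_nonneg r0]
    calc r * |1 - b * w| ≤ (5 / 4 * s) * (2 * s ^ 2) :=
          mul_le_mul r1 k1 (abs_nonneg _) (by positivity)
      _ = 5 / 2 * s ^ 3 := by ring
  rw [e0, e1, e2]
  rw [hw] at k2
  rw [abs_le] at a1 a2 k2 ⊢
  constructor <;> nlinarith [a1.1, a1.2, a2.1, a2.2, k2.1, k2.2]

lemma PM (σ s : ℝ) (hσ : σ = 1 ∨ σ = -1) (h0 : 0 ≤ s) (h1 : s ≤ 1 / 10) : P σ s ∈ M := by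
  simp only [M, P, mem_ofPred_eq]
  rcases hσ with rfl | rfl <;> nlinarith

lemma Pseg (σ τ ε : ℝ) (h0 : 0 ≤ τ) (h1 : τ ≤ ε) (h2 : 0 < ε) :
    P σ τ ∈ segment ℝ (P σ 0) (P σ ε) := by
  refine ⟨1 - τ / ε, τ / ε, by rw [sub_nonneg, div_le_one h2]; exact h1, by positivity, by ring, ?_⟩
  ext
  · simp only [P, Prod.fst_add, Prod.smul_fst, smul_eq_mul]; field_simp; ring
  · simp only [P, Prod.snd_add, Prod.smul_snd, smul_eq_mul]; field_simp; ring

theorem result : ¬ NPC := by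
  intro H
  obtain ⟨δ, hδ, H⟩ := H (P 1 0) (PM 1 0 (Or.inl rfl) le_rfl (by norm_num))
  obtain ⟨ε, e0, e1, e2⟩ : ∃ ε : ℝ, 0 < ε ∧ ε ≤ 1 / 10000 ∧ ε ≤ δ / 10 :=
    ⟨min (1 / 10000) (δ / 10), lt_min (by norm_num) (by linarith), min_le_left _ _,
      min_le_right _ _⟩
  have hP : P (-1) 0 = P 1 0 := by simp [P]
  have fe := abs_le.1 (Phi_est ε e0.le (by linarith))
  have ge := abs_le.1 (Psi_est ε e0.le (by linarith))
  have ee2 : ε ^ 2 ≤ ε / 10000 := by nlinarith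
  have ee3 : ε ^ 3 ≤ ε ^ 2 / 10000 := by nlinarith [sq_nonneg ε]
  have ep2 : 0 < ε ^ 2 := by positivity
  have hc : ContinuousOn Φ (Icc 0 ε) := by
    unfold Φ
    refine ((ContinuousOn.log (by fun_prop) ?_).sub (ContinuousOn.log (by fun_prop) ?_)).add
      (by fun_prop)
    · intro x hx; have := hx.1; linarith
    · intro x hx; have := hx.2; linarith
  obtain ⟨τ, ⟨t0, t1⟩, ht⟩ := intermediate_value_Icc e0.le hc
    (show (Φ 0 + Φ ε) / 2 ∈ Icc (Φ 0) (Φ ε) from ⟨by linarith [fe.1], by linarith [fe.1]⟩)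
  have ft := abs_le.1 (Phi_est τ t0 (by linarith))
  have gt := abs_le.1 (Psi_est τ t0 (by linarith))
  have tt2 : τ ^ 2 ≤ τ / 10000 := by nlinarith
  have tt3 : τ ^ 3 ≤ τ ^ 2 / 10000 := by nlinarith [sq_nonneg τ]
  have tp2 : 0 ≤ τ ^ 2 := by positivity
  have hτ : τ ≤ 3 / 5 * ε := by linarith [ft.1, fe.2]
  have hτ2 : τ ^ 2 ≤ 9 / 25 * ε ^ 2 := by nlinarith
  have d1 := dray 1 0 ε (Or.inl rfl) le_rfl e0.le (by linarith)
  have d2 := dray (-1) 0 ε (Or.inr rfl) le_rfl e0.le (by linarith)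
  have d0 := dray 1 0 0 (Or.inl rfl) le_rfl le_rfl (by linarith)
  have m1 := dray 1 0 τ (Or.inl rfl) le_rfl t0 (by linarith)
  have m2 := dray (-1) 0 τ (Or.inr rfl) le_rfl t0 (by linarith)
  have n1 := dray 1 τ ε (Or.inl rfl) t0 t1 (by linarith)
  have n2 := dray (-1) τ ε (Or.inr rfl) t0 t1 (by linarith)
  have s2 := Pseg (-1) τ ε t0 t1 e0
  rw [hP] at d2 m2 s2
  have := H (P 1 0) (PM 1 0 (Or.inl rfl) le_rfl (by norm_num))
    (P (-1) ε) (PM _ _ (Or.inr rfl) e0.le (by linarith))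
    (P 1 ε) (PM _ _ (Or.inl rfl) e0.le (by linarith))
    (by rw [d0]; linarith) (by rw [d2]; linarith [fe.2]) (by rw [d1]; linarith [fe.2])
    (P (-1) τ) s2 (P 1 τ) (Pseg 1 τ ε t0 t1 e0) (by rw [m2, n2]; linarith)
    (by rw [m1, n1]; linarith)
  linarith [fe.1, fe.2, ge.1, ge.2, ft.1, ft.2, gt.1, gt.2]

end Pool.Agent.Results.MP_b19ca0_gt.Fails
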